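import Mathlib
import Pool.Agent.X195.WF4

/-!
# MP_c68506_an: fixed points of nonexpansive representations when `WAP(S)` has an invariant mean

Every semitopological semigroup `S`, separable or not, for which `WAP(S)` has a left invariant mean
has property (F).

Outline. Let `K` be the weakly compact convex set. For a continuous function `g` on `K` and `y` in
`K` the function `s ↦ g(T_s y)` is weakly almost periodic: this is Grothendieck's theorem on
separately continuous functions, applied to the (compact) closure of `{T_s}` in `K^K`. So the mean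
gives an invariant positive functional on `C(K)`. Its support inside a minimal closed invariant
subset `Y` of a minimal invariant closed convex subset of `K` satisfies `T_s Y = Y`. For every seminorm `p`
of `Q` the compact set `Y` has a nonempty relatively weakly open subset of small `p`-diameter
(Namioka; no separability is needed), and finitely many of its translates, which have measure
bounded below, provide a finite net. So `Y` is `p`-precompact, and by De Marr's argument its
`p`-diameter is zero.
-/

set_option autoImplicit false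

open Filter Topology Set
open scoped BoundedContinuousFunction

universe u v w

namespace Pool.Agent.Results.MP_c68506_an.NonexpansiveFixedPoint

/-- A semitopological semigroup: Hausdorff, with all left and all right translations continuous. -/
class Semitopological (S : Type u) [Semigroup S] [TopologicalSpace S] : Prop where
  hausdorff : T2Space S
  left : ∀ t : S, Continuous fun s : S => t * s
  right : ∀ t : S, Continuous fun s : S => s * t

section
variable {S : Type u} [Semigroup S] [TopologicalSpace S] [Semitopological S]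

/-- The translate `ℓ_a f (t) = f (a t)`. -/
noncomputable def ell (a : S) (f : S →ᵇ ℝ) : S →ᵇ ℝ :=
  f.compContinuous ⟨fun t => a * t, Semitopological.left a⟩

/-- `f ∈ WAP(S)`: the orbit `{ℓ_s f : s ∈ S}` is relatively compact in the weak topology of the
Banach space `C_b(S)`. -/
def IsWAP (f : S →ᵇ ℝ) : Prop :=
  IsCompact (closure (toWeakSpace ℝ (S →ᵇ ℝ) '' range fun s : S => ell s f))

variable (S) in
/-- `WAP(S)` has a left invariant mean `m` (only the values of `m` on `WAP(S)` matter). -/
def HasLIM : Prop :=
  ∃ m : (S →ᵇ ℝ) → ℝ,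
    (∀ f g, IsWAP f → IsWAP g → m (f + g) = m f + m g) ∧
    (∀ (c : ℝ) (f), IsWAP f → m (c • f) = c * m f) ∧
    (∀ f, IsWAP f → (∀ s, 0 ≤ f s) → 0 ≤ m f) ∧
    m 1 = 1 ∧
    ∀ (s : S) (f), IsWAP f → m (ell s f) = m f

end

section
variable {E : Type v} [AddCommGroup E] [Module ℝ E] [TopologicalSpace E]

/-- The weak topology `σ(E, E^*)` on the subset `C` of `E`. -/
@[reducible] noncomputable def wk (C : Set E) : TopologicalSpace C :=
  TopologicalSpace.induced (fun x : C => toWeakSpace ℝ E (x : E)) inferInstance

/-- `T` is a weakly separately continuous, weakly quasi-equicontinuous, `Q`-nonexpansive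
representation of `S` on `C`. -/
structure IsRepresentation {S : Type u} [Semigroup S] [TopologicalSpace S] {ι : Type w}
    (Q : ι → Seminorm ℝ E) (C : Set E) (T : S → C → C) : Prop where
  mul : ∀ s t x, T (s * t) x = T s (T t x)
  cont_left : ∀ x, @Continuous S C _ (wk C) fun s => T s x
  cont_right : ∀ s, @Continuous C C (wk C) (wk C) (T s)
  quasi : ∀ σ ∈ @closure (C → C) (@Pi.topologicalSpace C (fun _ => C) fun _ => wk C) (range T),
    @Continuous C C (wk C) (wk C) σ
  nonexpansive : ∀ i s x y, Q i ((T s x : E) - T s y) ≤ Q i ((x : E) - y)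

end

/-- Property (F). -/
def PropertyF (S : Type u) [Semigroup S] [TopologicalSpace S] : Prop :=
  ∀ (E : Type v) [AddCommGroup E] [Module ℝ E] [TopologicalSpace E] [T2Space E] (ι : Type w)
    (Q : SeminormFamily ℝ E ι), WithSeminorms Q →
    ∀ C : Set E, C.Nonempty → Convex ℝ C → IsCompact (toWeakSpace ℝ E '' C) →
      ∀ T : S → C → C, IsRepresentation Q C T → ∃ x : C, ∀ s, T s x = x

/-! ### proof -/

open Pool.Agent.X195.WF

section
variable {S : Type u} [Semigroup S] [TopologicalSpace S] [Semitopological S]
variable {K : Type v} [TopologicalSpace K] [CompactSpace K] [T2Space K]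

/-- the map `h ↦ (s ↦ h (T_s y))` -/
noncomputable def theta (c : C(S, K)) : C(K, ℝ) →L[ℝ] (S →ᵇ ℝ) :=
  LinearMap.mkContinuous
    { toFun := fun h => (BoundedContinuousFunction.mkOfCompact h).compContinuous c
      map_add' := fun h k => by ext s; rfl
      map_smul' := fun a h => by ext s; rfl } 1 (by
    intro h
    rw [one_mul]
    refine (BoundedContinuousFunction.norm_le (norm_nonneg h)).2 fun s => ?_
    exact h.norm_coe_le_norm (c s))

omit [Semitopological S] [Semigroup S] [T2Space K] in
lemma theta_apply (c : C(S, K)) (h : C(K, ℝ)) (s : S) : theta c h s = h (c s) := rfl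

/-- orbit functions are weakly almost periodic -/
lemma isWAP (T : S → C(K, K)) (hmul : ∀ s t x, T (s * t) x = T s (T t x))
    (hc : ∀ x, Continuous fun s => T s x)
    (hq : ∀ σ ∈ closure (range fun s => (T s : K → K)), Continuous σ) (y : K) (g : C(K, ℝ)) :
    IsWAP (theta ⟨fun s => T s y, hc y⟩ g) := by
  set Cl : Set (K → K) := closure (range fun s => (T s : K → K)) with hCl
  have hClc : CompactSpace Cl := isCompact_iff_compactSpace.1 isClosed_closure.isCompact
  set θ := theta (⟨fun s => T s y, hc y⟩ : C(S, K)) with hθ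
  let G : Cl → C(K, ℝ) := fun σ => g.comp ⟨σ.1, hq σ.1 σ.2⟩
  let Ψ : Cl → WeakSpace ℝ (S →ᵇ ℝ) := fun σ => toWeakSpace ℝ (S →ᵇ ℝ) (θ (G σ))
  have hΨ : Continuous Ψ := by
    refine WeakBilin.continuous_of_continuous_eval _ fun L => ?_
    have h1 := cont_functional (K := K) G (fun x => by
      have h2 : Continuous fun σ : Cl => σ.1 x := (continuous_apply x).comp continuous_subtype_val
      exact g.continuous.comp h2) ‖g‖ (fun σ x => g.norm_coe_le_norm _)
      ((L : StrongDual ℝ (S →ᵇ ℝ)).comp θ)
    exact h1
  have hR : IsCompact (range Ψ) := isCompact_range hΨ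
  refine hR.closure_of_subset ?_
  rintro _ ⟨_, ⟨a, rfl⟩, rfl⟩
  refine ⟨⟨T a, subset_closure ⟨a, rfl⟩⟩, ?_⟩
  show toWeakSpace ℝ (S →ᵇ ℝ) (θ (G ⟨T a, _⟩)) = toWeakSpace ℝ (S →ᵇ ℝ) (ell a (θ g))
  congr 1
  ext t
  show g (T a (T t y)) = g (T (a * t) y)
  rw [hmul]

end

/-- **Theorem.** Every semitopological semigroup `S` for which `WAP(S)` has a left invariant mean has
property (F). -/
theorem result (S : Type u) [Semigroup S] [TopologicalSpace S] [Semitopological S] (hS : HasLIM S) :
    PropertyF.{u, v, w} S := by
  intro E _ _ _ _ ι Q hQ C hne hconv hcpt T hT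
  have := hQ.topologicalAddGroup
  have := hQ.continuousSMul
  have := hQ.toLocallyConvexSpace
  let _ : TopologicalSpace C := wk C
  -- `S` is not empty
  obtain ⟨m, m1, m2, m3, m4, m5⟩ := hS
  have hSne : Nonempty S := by
    by_contra hemp
    rw [not_nonempty_iff] at hemp
    have h0 : (1 : S →ᵇ ℝ) = (2 : ℝ) • (1 : S →ᵇ ℝ) := by ext s; exact hemp.elim s
    have hW : IsWAP (1 : S →ᵇ ℝ) := by
      unfold IsWAP
      rw [range_eq_empty, image_empty, closure_empty]
      exact isCompact_empty
    have := m2 2 1 hW
    rw [← h0, m4] at this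
    norm_num at this
  -- topology of `C`
  have hind : IsInducing fun x : C => toWeakSpace ℝ E (x : E) := ⟨rfl⟩
  have he : ∀ f : StrongDual ℝ E, Continuous fun x : C => f (x : E) := by
    intro f
    have h1 : Continuous fun z : WeakSpace ℝ E => (topDualPairing ℝ E f) z :=
      WeakBilin.eval_continuous _ f
    exact h1.comp hind.continuous
  have hKc : CompactSpace C := by
    rw [← isCompact_univ_iff, hind.isCompact_iff]
    have : (fun x : C => toWeakSpace ℝ E (x : E)) '' univ = toWeakSpace ℝ E '' C := by
      ext z
      constructor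
      · rintro ⟨x, -, rfl⟩; exact ⟨x, x.2, rfl⟩
      · rintro ⟨x, hx, rfl⟩; exact ⟨⟨x, hx⟩, mem_univ _, rfl⟩
    rw [this]
    exact hcpt
  have hK2 : T2Space C := by
    refine ⟨fun x y hxy => ?_⟩
    have hxy' : (x : E) ≠ y := fun h => hxy (Subtype.ext h)
    obtain ⟨f, hf⟩ := geometric_hahn_banach_point_point hxy'
    refine ⟨{z | f z < (f x + f y) / 2}, {z | (f x + f y) / 2 < f z},
      isOpen_lt (he f) continuous_const, isOpen_lt continuous_const (he f), ?_, ?_, ?_⟩
    · show f x < _; linarith
    · show _ < f y; linarith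
    · rw [Set.disjoint_left]
      intro z hz1 hz2
      have h1 : f z < (f x + f y) / 2 := hz1
      have h2 : (f x + f y) / 2 < f z := hz2
      linarith
  have : Nonempty C := hne.to_subtype
  let T' : S → C(C, C) := fun s => ⟨T s, hT.cont_right s⟩
  have hW : ∀ (y : C) (g : C(C, ℝ)), IsWAP (theta ⟨fun s => T' s y, hT.cont_left y⟩ g) := fun y g =>
    isWAP T' hT.mul hT.cont_left hT.quasi y g
  refine fixed_point Q (fun i => hQ.continuous_seminorm i) (fun x hx => hQ.separating_of_T1 x hx)
    (fun x : C => (x : E)) Subtype.val_injective he (by rwa [Subtype.range_coe]) T'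
    (fun s t => ⟨s * t, hT.mul s t⟩) hT.nonexpansive fun y => ?_
  refine ⟨fun g => m (theta ⟨fun s => T' s y, hT.cont_left y⟩ g), ⟨?_, ?_, ?_, ?_⟩, ?_, ?_⟩
  · intro f g
    rw [map_add, m1 _ _ (hW y f) (hW y g)]
  · intro c f
    rw [map_smul, m2 _ _ (hW y f)]
  · intro f hf
    exact m3 _ (hW y f) fun s => hf _
  · have : theta (⟨fun s => T' s y, hT.cont_left y⟩ : C(S, C)) (1 : C(C, ℝ)) = 1 := by
      ext s; rfl
    rw [this, m4]
  · intro s f
    have : theta (⟨fun s => T' s y, hT.cont_left y⟩ : C(S, C)) (f.comp (T' s)) =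
        ell s (theta (⟨fun s => T' s y, hT.cont_left y⟩ : C(S, C)) f) := by
      ext t
      show f (T s (T t y)) = f (T (s * t) y)
      rw [hT.mul]
    show m (theta _ (f.comp (T' s))) = _
    rw [this, m5 s _ (hW y f)]
  · intro f hf
    have : theta (⟨fun s => T' s y, hT.cont_left y⟩ : C(S, C)) f =
        (0 : ℝ) • theta (⟨fun s => T' s y, hT.cont_left y⟩ : C(S, C)) f := by
      ext s
      show f (T' s y) = 0 * f (T' s y)
      rw [hf s, mul_zero]
    show m (theta _ f) = 0
    rw [this, m2 _ _ (hW y f), zero_mul]

end Pool.Agent.Results.MP_c68506_an.NonexpansiveFixedPoint
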